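import Pool.Agent.H41.OVO.Defs

/-! Ovoids: from `Theta` is trivial outside one digit to the degree. -/

set_option autoImplicit false
set_option linter.unusedSectionVars false
set_option linter.style.haveILetI false

namespace Pool.Agent.H1.OV.Deg

open Finset Function Pool.OVE

variable {F : Type} [Field F] {h : ℕ} [NeZero h]

/-- the word of zeros. -/
def w0 : W h := fun _ => 0

/-- matrix unit on the diagonal. -/
def Pd (i : Fin 4) : Matrix (Fin 4) (Fin 4) F := Matrix.diagonal (Pi.single i 1)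

theorem rho_Pd (m : ZMod h) (i : Fin 4) (φ : E F h) (w : W h) :
    rho m (Pd i) φ w = if w m = i then φ w else 0 := by
  rw [rho_apply]
  rw [Finset.sum_eq_single (w m)]
  · unfold Pd
    rw [Matrix.diagonal_apply_eq, update_eq_self]
    by_cases hi : w m = i
    · rw [if_pos hi, hi, Pi.single_eq_same, one_mul]
    · rw [if_neg hi, Pi.single_eq_of_ne hi, zero_mul]
  · intro j _ hj
    unfold Pd
    rw [Matrix.diagonal_apply_ne _ (Ne.symm hj), zero_mul]
  · intro hh; exact absurd (Finset.mem_univ _) hh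

theorem supp (T : Module.End F (E F h)) (k : ZMod h)
    (hT : ∀ m, m ≠ k → ∀ A, Commute T (rho m A)) (s : Finset (ZMod h)) (hs : k ∉ s) (φ : E F h) :
    T φ w0 = T (fun w => if ∀ m ∈ s, w m = 0 then φ w else 0) w0 := by
  classical
  induction s using Finset.induction_on with
  | empty => simp
  | insert a s ha ih =>
    have hak : a ≠ k := fun hh => hs (by rw [hh]; exact Finset.mem_insert_self _ _)
    rw [ih fun hh => hs (Finset.mem_insert_of_mem hh)]
    set ψ : E F h := fun w => if ∀ m ∈ s, w m = 0 then φ w else 0 with hψ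
    have h1 : T (rho a (Pd 0) ψ) w0 = (rho a (Pd 0) (T ψ)) w0 := by
      have := hT a hak (Pd 0)
      exact congrFun (LinearMap.congr_fun this.eq ψ) w0
    rw [rho_Pd, if_pos (show (w0 : W h) a = 0 from rfl)] at h1
    rw [← h1]
    have h2 : rho a (Pd 0) ψ = fun w => if ∀ m ∈ insert a s, w m = 0 then φ w else 0 := by
      funext w
      rw [rho_Pd, hψ]
      simp only [Finset.forall_mem_insert]
      by_cases h1 : w a = 0
      · simp [h1]
      · simp [h1]
    rw [h2]

/-- coefficients. -/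
def co (T : Module.End F (E F h)) (k : ZMod h) (j : Fin 4) : F :=
  T (Pi.single (update w0 k j) 1) w0

theorem expand (T : Module.End F (E F h)) (k : ZMod h)
    (hT : ∀ m, m ≠ k → ∀ A, Commute T (rho m A)) (φ : E F h) :
    T φ w0 = ∑ j, φ (update w0 k j) * co T k j := by
  classical
  rw [supp T k hT (Finset.univ.erase k) (by simp) φ]
  have h1 : (fun w : W h => if ∀ m ∈ Finset.univ.erase k, w m = 0 then φ w else 0) =
      ∑ j : Fin 4, φ (update w0 k j) • (Pi.single (update w0 k j) 1 : E F h) := by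
    funext w
    rw [Finset.sum_apply]
    simp only [Pi.smul_apply, smul_eq_mul]
    by_cases hw : ∀ m ∈ Finset.univ.erase k, w m = 0
    · rw [if_pos hw]
      have hw' : w = update w0 k (w k) := by
        funext m
        by_cases hm : m = k
        · subst hm; simp
        · rw [update_of_ne hm]
          exact hw m (by simp [hm])
      rw [Finset.sum_eq_single (w k)]
      · rw [← hw', Pi.single_eq_same, mul_one]
      · intro j _ hj
        rw [Pi.single_eq_of_ne, mul_zero]
        intro hh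
        apply hj
        have := congrFun hh k
        rw [update_self] at this
        exact this.symm
      · intro hh; exact absurd (Finset.mem_univ _) hh
    · rw [if_neg hw]
      symm
      apply Finset.sum_eq_zero
      intro j _
      rw [Pi.single_eq_of_ne, mul_zero]
      intro hh
      apply hw
      intro m hm
      rw [hh, update_of_ne (by simpa using hm)]
      rfl
  rw [h1, map_sum, Finset.sum_apply]
  refine Finset.sum_congr rfl fun j _ => ?_
  rw [map_smul, Pi.smul_apply, smul_eq_mul]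
  rfl

theorem hat_upd (y : Fin 4 → F) (hy : y 0 = 1) (k : ZMod h) (j : Fin 4) :
    (hat y : E F h) (update w0 k j) = y j ^ 2 ^ k.val := by
  unfold hat pr pw
  rw [Finset.prod_eq_single k]
  · rw [update_self]
  · intro m _ hm
    rw [update_of_ne hm]
    simp [w0, hy]
  · intro hh; exact absurd (Finset.mem_univ _) hh

theorem J_row (b : Fin 5) : (J b : Matrix (Fin 4) (Fin 4) F) 0 3 = 0 := by
  fin_cases b <;> simp [J]

/-- `c_{i3} = 0`. -/
theorem co_three (T : Module.End F (E F h)) (k : ZMod h) (C : Fin 5 → Module.End F (E F h))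
    (hC : ∀ b A, Commute (C b) (rho k A)) (hT : T = ∑ b, rho k (J b) * C b) : co T k 3 = 0 := by
  unfold co
  rw [hT, LinearMap.sum_apply, Finset.sum_apply]
  apply Finset.sum_eq_zero
  intro b _
  rw [Module.End.mul_apply, rho_apply]
  have hz : (w0 : W h) k = 0 := rfl
  rw [hz]
  apply Finset.sum_eq_zero
  intro j _
  by_cases hj : j = 3
  · rw [hj, J_row, zero_mul]
  · have h1 : rho k (Pd 3) (Pi.single (update w0 k 3) 1 : E F h) = Pi.single (update w0 k 3) 1 := by
      funext w
      rw [rho_Pd]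
      by_cases hw : w k = 3
      · rw [if_pos hw]
      · rw [if_neg hw, Pi.single_eq_of_ne]
        intro hh
        apply hw
        rw [hh, update_self]
    have h2 : (C b (Pi.single (update w0 k 3) 1)) (update w0 k j) = 0 := by
      rw [← h1]
      have h3 := congrFun (LinearMap.congr_fun (hC b (Pd 3)).eq (Pi.single (update w0 k 3) 1))
        (update w0 k j)
      rw [Module.End.mul_apply, Module.End.mul_apply, rho_Pd, update_self, if_neg hj] at h3
      exact h3
    rw [h2, mul_zero]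

theorem bf_single (φ : E F h) (w : W h) : bf φ (Pi.single w 1) = φ (wbr w) := by
  classical
  unfold bf
  rw [Finset.sum_eq_single (wbr w)]
  · rw [wbr_wbr, Pi.single_eq_same, mul_one]
  · intro v _ hv
    rw [Pi.single_eq_of_ne, mul_zero]
    intro hh
    apply hv
    rw [← hh, wbr_wbr]
  · intro hh; exact absurd (Finset.mem_univ _) hh

theorem hat_inf : (hat ![0, 0, 0, 1] : E F h) = Pi.single (wbr w0) 1 := by
  funext w
  have h3 : (wbr w0 : W h) = fun _ => 3 := rfl
  rw [h3]
  by_cases hw : w = fun _ => 3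
  · rw [hw, Pi.single_eq_same]
    unfold hat pr pw
    simp
  · rw [Pi.single_eq_of_ne hw]
    obtain ⟨m, hm⟩ : ∃ m, w m ≠ 3 := by
      by_contra hh
      push Not at hh
      exact hw (funext hh)
    unfold hat pr pw
    apply Finset.prod_eq_zero (Finset.mem_univ m)
    have : (![0, 0, 0, 1] : Fin 4 → F) (w m) = 0 := by
      generalize w m = a at hm
      fin_cases a <;> first | rfl | exact absurd rfl hm
    rw [this]
    exact zero_pow (by positivity)

/-- `c_{3j} = 0`. -/
theorem co_inf (T : Module.End F (E F h)) (k : ZMod h)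
    (hsa : ∀ φ ψ, bf (T φ) ψ = bf φ (T ψ)) (h0 : T (hat ![0, 0, 0, 1]) = 0) (j : Fin 4) :
    co T k j = 0 := by
  unfold co
  have h1 := bf_single (T (Pi.single (update w0 k j) 1)) (wbr w0)
  rw [wbr_wbr] at h1
  rw [← h1, hsa, ← hat_inf, h0]
  simp [bf]

variable [CharP F 2]

/-- the form of `f`, one digit `k`. -/
theorem deg_core (T : Fin 4 → Module.End F (E F h)) (k : ZMod h)
    (hsa : ∀ i φ ψ, bf (T i φ) ψ = bf φ (T i ψ))
    (hslot : ∀ i, ∃ C : Fin 5 → Module.End F (E F h), (∀ b A, Commute (C b) (rho k A)) ∧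
      T i = ∑ b, rho k (J b) * C b)
    (hk : ∀ m, m ≠ k → ∀ i A, Commute (T i) (rho m A))
    (f : F → F → F)
    (hE : ∀ s t, ∑ i, (![1, s, t, f s t] : Fin 4 → F) i ^ 2 • T i (hat ![1, s, t, f s t]) =
      Qf ![1, s, t, f s t] • hat ![1, s, t, f s t])
    (hinf : ∑ i, (![0, 0, 0, 1] : Fin 4 → F) i ^ 2 • T i (hat ![0, 0, 0, 1]) =
      Qf (![0, 0, 0, 1] : Fin 4 → F) • hat ![0, 0, 0, 1]) :
    ∃ M : Fin 3 → Fin 3 → F, ∀ s t : F, f s t = s * t + ∑ a, ∑ b, M a b *
      ((![1, s, t] : Fin 3 → F) a) ^ 2 * ((![1, s, t] : Fin 3 → F) b) ^ 2 ^ k.val := by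
  have h2 : (2 : F) = 0 := CharTwo.two_eq_zero
  have hT3 : T 3 (hat ![0, 0, 0, 1]) = 0 := by
    rw [Fin.sum_univ_four] at hinf
    have hq : Qf (![0, 0, 0, 1] : Fin 4 → F) = 0 := by simp [Qf]
    rw [hq] at hinf
    simpa using hinf
  have hc3 : ∀ j, co (T 3) k j = 0 := fun j => co_inf (T 3) k (hsa 3) hT3 j
  have hc : ∀ i, co (T i) k 3 = 0 := by
    intro i
    obtain ⟨C, hC, hTi⟩ := hslot i
    exact co_three (T i) k C hC hTi
  refine ⟨fun a b => co (T a.castSucc) k b.castSucc, ?_⟩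
  intro s t
  have h1 := congrFun (hE s t) w0
  set y : Fin 4 → F := ![1, s, t, f s t] with hy
  have hy0 : y 0 = 1 := rfl
  rw [Finset.sum_apply] at h1
  simp only [Pi.smul_apply, smul_eq_mul] at h1
  have hw : (hat y : E F h) w0 = 1 := by
    have := hat_upd y hy0 k 0
    rw [hy0, one_pow] at this
    rw [← this]
    congr 1
    funext m
    by_cases hm : m = k
    · subst hm; simp [w0]
    · rw [update_of_ne hm]
  rw [hw, mul_one] at h1
  have h4 : ∀ i, T i (hat y) w0 = ∑ j, y j ^ 2 ^ k.val * co (T i) k j := by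
    intro i
    rw [expand (T i) k (fun m hm A => hk m hm i A)]
    exact Finset.sum_congr rfl fun j _ => by rw [hat_upd y hy0]
  rw [Finset.sum_congr rfl fun i _ => by rw [h4 i]] at h1
  have hq : Qf y = f s t + s * t := by simp [Qf, hy]
  rw [hq] at h1
  simp only [Fin.sum_univ_four, hc, hc3] at h1
  have e1 : f s t = s * t + (f s t + s * t) := by linear_combination -(s * t) * h2
  rw [e1, ← h1]
  simp only [Fin.sum_univ_three]
  simp only [hy]
  simp
  ring

/-- `k ≠ 0, 1`. -/
theorem deg_form (hh : 3 ≤ h) (T : Fin 4 → Module.End F (E F h))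
    (hc0 : ∀ i A, Commute (T i) (rho 0 A)) (hc1 : ∀ i A, Commute (T i) (rho 1 A))
    (hsa : ∀ i φ ψ, bf (T i φ) ψ = bf φ (T i ψ))
    (hslot : ∀ k, k ≠ 0 → k ≠ 1 → ∀ i, ∃ C : Fin 5 → Module.End F (E F h),
      (∀ b A, Commute (C b) (rho k A)) ∧ T i = ∑ b, rho k (J b) * C b)
    (k : ZMod h) (hk : ∀ m, m ≠ k → ∀ i A, Commute (T i) (rho m A))
    (f : F → F → F)
    (hE : ∀ s t, ∑ i, (![1, s, t, f s t] : Fin 4 → F) i ^ 2 • T i (hat ![1, s, t, f s t]) =
      Qf ![1, s, t, f s t] • hat ![1, s, t, f s t])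
    (hinf : ∑ i, (![0, 0, 0, 1] : Fin 4 → F) i ^ 2 • T i (hat ![0, 0, 0, 1]) =
      Qf (![0, 0, 0, 1] : Fin 4 → F) • hat ![0, 0, 0, 1]) :
    ∃ k : ZMod h, k ≠ 0 ∧ k ≠ 1 ∧ ∃ M : Fin 3 → Fin 3 → F, ∀ s t : F, f s t = s * t +
      ∑ a, ∑ b, M a b * ((![1, s, t] : Fin 3 → F) a) ^ 2 *
        ((![1, s, t] : Fin 3 → F) b) ^ 2 ^ k.val := by
  by_cases hk01 : k = 0 ∨ k = 1
  · have hall : ∀ m i A, Commute (T i) (rho m A) := by
      intro m i A
      by_cases hm : m = k
      · rcases hk01 with h0 | h0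
        · rw [hm, h0]; exact hc0 i A
        · rw [hm, h0]; exact hc1 i A
      · exact hk m hm i A
    have hv : (2 : ZMod h).val = 2 := ZMod.val_two_eq_two_mod h ▸ Nat.mod_eq_of_lt (by omega)
    haveI : Fact (1 < h) := ⟨by omega⟩
    have hk0 : (2 : ZMod h) ≠ 0 := by
      intro hh'
      rw [hh', ZMod.val_zero] at hv
      omega
    have hk1 : (2 : ZMod h) ≠ 1 := by
      intro hh'
      rw [hh', ZMod.val_one] at hv
      omega
    exact ⟨2, hk0, hk1, deg_core T 2 hsa (hslot 2 hk0 hk1) (fun m _ i A => hall m i A) f hE hinf⟩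
  · push Not at hk01
    exact ⟨k, hk01.1, hk01.2, deg_core T k hsa (hslot k hk01.1 hk01.2) hk f hE hinf⟩

/-- product of two affine functions has third differences zero. -/
theorem third_mul (A B : F × F → F) (hA : ∀ u v, A (u + v) = A u + A v + A 0)
    (hB : ∀ u v, B (u + v) = B u + B v + B 0) (u v w : F × F) :
    A (u + v + w) * B (u + v + w) + A (u + v) * B (u + v) + A (u + w) * B (u + w) +
      A (v + w) * B (v + w) + A u * B u + A v * B v + A w * B w + A 0 * B 0 = 0 := by
  have h2 : (2 : F) = 0 := CharTwo.two_eq_zero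
  rw [hA (u + v) w, hA u v, hA u w, hA v w, hB (u + v) w, hB u v, hB u w, hB v w]
  ring_nf
  linear_combination (A u * B u * 2 + A v * B v * 2 + A w * B w * 2 + A 0 * B 0 * 4 + A u * B v +
    A v * B u + A u * B w + A w * B u + A v * B w + A w * B v + 2 * A u * B 0 + 2 * A 0 * B u +
    2 * A v * B 0 + 2 * A 0 * B v + 2 * A w * B 0 + 2 * A 0 * B w) * h2

/-- third differences vanish. -/
theorem deg_third (n : ℕ) (M : Fin 3 → Fin 3 → F) (f : F → F → F)
    (hf : ∀ s t : F, f s t = s * t + ∑ a, ∑ b, M a b * ((![1, s, t] : Fin 3 → F) a) ^ 2 *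
      ((![1, s, t] : Fin 3 → F) b) ^ 2 ^ n) (s₁ t₁ s₂ t₂ s₃ t₃ : F) :
    f (s₁ + s₂ + s₃) (t₁ + t₂ + t₃) + f (s₁ + s₂) (t₁ + t₂) + f (s₁ + s₃) (t₁ + t₃) +
      f (s₂ + s₃) (t₂ + t₃) + f s₁ t₁ + f s₂ t₂ + f s₃ t₃ + f 0 0 = 0 := by
  have h2 : (2 : F) = 0 := CharTwo.two_eq_zero
  have hadd : ∀ (m : ℕ) (a : Fin 3) (u v : F × F),
      (![1, (u + v).1, (u + v).2] : Fin 3 → F) a ^ 2 ^ m = (![1, u.1, u.2] : Fin 3 → F) a ^ 2 ^ m +
        (![1, v.1, v.2] : Fin 3 → F) a ^ 2 ^ m +
          (![1, (0 : F × F).1, (0 : F × F).2] : Fin 3 → F) a ^ 2 ^ m := by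
    intro m a u v
    fin_cases a
    · simp
      linear_combination h2
    · simp [add_pow_char_pow]
    · simp [add_pow_char_pow]
  have key : ∀ a b : Fin 3, ∀ u v w : F × F, _ := fun a b u v w =>
    third_mul (fun u : F × F => (![1, u.1, u.2] : Fin 3 → F) a ^ 2 ^ 1)
      (fun u : F × F => (![1, u.1, u.2] : Fin 3 → F) b ^ 2 ^ n) (hadd 1 a) (hadd n b) u v w
  have key0 := third_mul (fun u : F × F => u.1) (fun u : F × F => u.2) (fun u v => by simp)
    (fun u v => by simp) (s₁, t₁) (s₂, t₂) (s₃, t₃)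
  simp only [hf]
  have h3 : ∀ a b : Fin 3, _ := fun a b => key a b (s₁, t₁) (s₂, t₂) (s₃, t₃)
  simp only [Prod.mk_add_mk, pow_one, Prod.fst_zero, Prod.snd_zero] at h3 key0
  have h4 := Finset.sum_congr rfl fun (a : Fin 3) (_ : a ∈ Finset.univ) =>
    Finset.sum_congr rfl fun (b : Fin 3) (_ : b ∈ Finset.univ) =>
      congrArg (fun x => M a b * x) (h3 a b)
  simp only [mul_zero, Finset.sum_const_zero, mul_add, Finset.sum_add_distrib] at h4
  simp only [mul_assoc]
  linear_combination h4 + key0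

end Pool.Agent.H1.OV.Deg
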