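import Pool.Agent.H1.OV.Deg
import Pool.Agent.H22.OV8.Top
import Pool.Agent.H51.QOV.All

/-! Ovoids: from the form of `f` (one letter at digit 1, one letter at digit `k`) to the
classification, `q = 2^h`, `h ≥ 3`. -/

set_option autoImplicit false
set_option linter.unusedSectionVars false

namespace Pool.Agent.H1.OV.Deg

open Finset

/-- conclusion of S11343 from the form of `f`. -/
theorem deg_top (F : Type) [Field F] [Fintype F] (h : ℕ) [NeZero h] (hh : 3 ≤ h)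
    (hcard : Fintype.card F = 2 ^ h) (S : Set (Projectivization F (Fin 4 → F)))
    (hS : S.ncard = Fintype.card F ^ 2 + 1)
    (hcap : ∀ f : Fin 3 → Projectivization F (Fin 4 → F), Function.Injective f →
      (∀ i, f i ∈ S) → LinearIndependent F (fun i => (f i).rep))
    (A : (Fin 4 → F) ≃ₗ[F] (Fin 4 → F)) (f : F → F → F)
    (hmem : ∀ p, p ∈ S ↔
      ((∃ s t c : F, A ![1, s, t, f s t] = c • p.rep) ∨ ∃ c : F, A ![0, 0, 0, 1] = c • p.rep))
    (hov : ∀ u w : F × F, u ≠ w → f u.1 u.2 + f w.1 w.2 ≠ u.1 * w.2 + u.2 * w.1)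
    (hdeg : ∃ k : ZMod h, k ≠ 0 ∧ k ≠ 1 ∧ ∃ M : Fin 3 → Fin 3 → F, ∀ s t : F, f s t = s * t +
      ∑ a, ∑ b, M a b * ((![1, s, t] : Fin 3 → F) a) ^ 2 *
        ((![1, s, t] : Fin 3 → F) b) ^ 2 ^ k.val) :
    (∃ Q : QuadraticForm F (Fin 4 → F), ∀ p, p ∈ S ↔ Q p.rep = 0) ∨
      (∃ e : ℕ, 1 ≤ e ∧ Fintype.card F = 2 ^ (2 * e + 1) ∧
        ∃ A : (Fin 4 → F) ≃ₗ[F] (Fin 4 → F), ∀ p, p ∈ S ↔
          ((∃ s t c : F,
              A ![1, s, t, s ^ (2 ^ (e + 1)) + s * t + t ^ (2 ^ (e + 1) + 2)] = c • p.rep) ∨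
           ∃ c : F, A ![0, 0, 0, 1] = c • p.rep)) := by
  haveI : CharP F 2 := charP_of_card_eq_prime_pow (f := h) hcard
  obtain ⟨k, hk0, hk1, M, hM⟩ := hdeg
  rcases Nat.lt_or_ge 3 h with h4 | h3
  · exact Pool.Agent.H51.QOV.all_top F S h h4 hcard hS hcap
      ⟨A, f, fun s₁ t₁ s₂ t₂ s₃ t₃ => deg_third k.val M f hM s₁ t₁ s₂ t₂ s₃ t₃, hmem⟩
  · have h3' : h = 3 := le_antisymm h3 hh
    subst h3'
    have hk2 : k.val = 2 := by
      have hlt := ZMod.val_lt k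
      have h0 : k.val ≠ 0 := fun hh' => hk0 ((ZMod.val_eq_zero k).1 hh')
      have h1 : k.val ≠ 1 := by
        intro hh'
        apply hk1
        have := ZMod.natCast_zmod_val k
        rw [hh'] at this
        rw [← this]
        rfl
      omega
    rw [hk2] at hM
    refine Pool.Agent.H22.OV8.top8 F S (by rw [hcard]; norm_num) hcap A f hmem hov
      ⟨M 0 0, M 1 0, M 2 0, M 0 1, M 0 2, M 1 2, M 2 1, M 1 1, M 2 2, ?_⟩
    intro s t
    rw [hM]
    simp only [Fin.sum_univ_three]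
    simp
    ring

end Pool.Agent.H1.OV.Deg
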