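import Mathlib

/-! Ovoids of the symplectic space, FACT 1: the tensor powers of the points span the space of
words, and the sum over the ovoid is the form. -/

set_option autoImplicit false
set_option linter.unusedSectionVars false
set_option linter.style.haveILetI false

namespace Pool.Agent.H1.OV

open Finset

/-- words with coefficients. -/
abbrev E (F : Type) (h : ℕ) := (ZMod h → Fin 4) → F

variable {F : Type} [Field F] {h : ℕ} [NeZero h]

/-- the symplectic form of `F^4`. -/
def om4 (y z : Fin 4 → F) : F := ∑ i, y i * z i.rev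

/-- the tensor power of a vector. -/
def hat (y : Fin 4 → F) : E F h := fun w => ∏ k, y (w k) ^ 2 ^ k.val

/-- the form on words. -/
def bf (φ ψ : E F h) : F := ∑ w, φ w * ψ fun k => (w k).rev

theorem sum_two_pow (h : ℕ) [NeZero h] : ∑ k : ZMod h, 2 ^ k.val = 2 ^ h - 1 := by
  obtain ⟨n, rfl⟩ := Nat.exists_eq_succ_of_ne_zero (NeZero.ne h)
  have h1 : ∑ k : ZMod (n + 1), 2 ^ k.val = ∑ i : Fin (n + 1), 2 ^ (i : ℕ) := rfl
  rw [h1, Fin.sum_univ_eq_sum_range (fun i => 2 ^ i)]
  rw [Nat.geomSum_eq (le_refl 2)]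
  simp

theorem bf_hat [CharP F 2] (y z : Fin 4 → F) :
    bf (h := h) (hat y) (hat z) = om4 y z ^ (2 ^ h - 1) := by
  unfold bf hat
  have h1 : ∀ w : ZMod h → Fin 4, (∏ k, y (w k) ^ 2 ^ k.val) * (∏ k, z ((w k).rev) ^ 2 ^ k.val) =
      ∏ k, ((y (w k) * z (w k).rev) ^ 2 ^ k.val) := by
    intro w
    rw [← Finset.prod_mul_distrib]
    exact Finset.prod_congr rfl fun k _ => (mul_pow _ _ _).symm
  rw [Finset.sum_congr rfl fun w _ => h1 w]
  have h2 := Finset.prod_univ_sum (ι := ZMod h) (κ := fun _ => Fin 4) (fun _ => Finset.univ)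
    (fun k i => (y i * z i.rev) ^ 2 ^ k.val)
  rw [Fintype.piFinset_univ] at h2
  rw [← h2]
  have h3 : ∀ k : ZMod h, ∑ i : Fin 4, (y i * z i.rev) ^ 2 ^ k.val = om4 y z ^ 2 ^ k.val := by
    intro k
    unfold om4
    rw [sum_pow_char_pow]
  rw [Finset.prod_congr rfl fun k _ => h3 k, Finset.prod_pow_eq_pow_sum, sum_two_pow]

theorem bf_add_left (φ φ' ψ : E F h) : bf (φ + φ') ψ = bf φ ψ + bf φ' ψ := by
  simp [bf, add_mul, Finset.sum_add_distrib]

theorem bf_smul_left (a : F) (φ ψ : E F h) : bf (a • φ) ψ = a * bf φ ψ := by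
  simp [bf, Finset.mul_sum, mul_assoc]

theorem bf_comm (φ ψ : E F h) : bf φ ψ = bf ψ φ := by
  unfold bf
  let e : (ZMod h → Fin 4) ≃ (ZMod h → Fin 4) :=
    { toFun := fun w k => (w k).rev
      invFun := fun w k => (w k).rev
      left_inv := fun w => by funext k; simp
      right_inv := fun w => by funext k; simp }
  rw [← Equiv.sum_comp e]
  refine Finset.sum_congr rfl fun w _ => ?_
  have : (fun k => (e w k).rev) = w := by funext k; simp [e]
  rw [this, mul_comm]
  rfl

theorem bf_add_right (φ ψ ψ' : E F h) : bf φ (ψ + ψ') = bf φ ψ + bf φ ψ' := by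
  rw [bf_comm, bf_add_left, bf_comm ψ, bf_comm ψ']

theorem bf_smul_right (a : F) (φ ψ : E F h) : bf φ (a • ψ) = a * bf φ ψ := by
  rw [bf_comm, bf_smul_left, bf_comm ψ]

/-- the form as a bilinear map. -/
def bfL : E F h →ₗ[F] E F h →ₗ[F] F :=
  LinearMap.mk₂ F bf bf_add_left bf_smul_left bf_add_right bf_smul_right

@[simp] theorem bfL_apply (φ ψ : E F h) : bfL φ ψ = bf φ ψ := rfl

/-- the basis word. -/
def wd (w : ZMod h → Fin 4) : E F h := Pi.single w 1

theorem bf_wd (φ : E F h) (w : ZMod h → Fin 4) : bf φ (wd w) = φ fun k => (w k).rev := by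
  classical
  unfold bf wd
  rw [Finset.sum_eq_single (fun k => (w k).rev)]
  · have : (fun k => ((w k).rev).rev) = w := by funext k; simp
    rw [this, Pi.single_eq_same, mul_one]
  · intro v _ hv
    rw [Pi.single_eq_of_ne, mul_zero]
    intro hh
    apply hv
    rw [← hh]
    funext k; simp
  · intro hh; exact absurd (Finset.mem_univ _) hh

/-- nondegenerate. -/
theorem bf_nd {φ : E F h} (hφ : ∀ ψ, bf φ ψ = 0) : φ = 0 := by
  funext w
  have := hφ (wd fun k => (w k).rev)
  rw [bf_wd] at this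
  simpa using this

/-- an ovoid of the symplectic space, as a finite set of vectors. -/
structure IsOv [Fintype F] (h : ℕ) (Om : Finset (Fin 4 → F)) : Prop where
  cardF : Fintype.card F = 2 ^ h
  card : Om.card = (2 ^ h) ^ 2 + 1
  ne : ∀ y ∈ Om, ∀ z ∈ Om, y ≠ z → om4 y z ≠ 0

section
variable [Fintype F] [CharP F 2] {Om : Finset (Fin 4 → F)}

theorem om4_self (y : Fin 4 → F) : om4 y y = 0 := by
  have h2 : (2 : F) = 0 := CharTwo.two_eq_zero
  simp only [om4, Fin.sum_univ_four]
  change y 0 * y 3 + y 1 * y 2 + y 2 * y 1 + y 3 * y 0 = 0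
  linear_combination (y 0 * y 3 + y 1 * y 2) * h2

theorem om4_comm (y z : Fin 4 → F) : om4 y z = om4 z y := by
  simp only [om4, Fin.sum_univ_four]
  change y 0 * z 3 + y 1 * z 2 + y 2 * z 1 + y 3 * z 0 =
    z 0 * y 3 + z 1 * y 2 + z 2 * y 1 + z 3 * y 0
  ring

theorem one_lt_two_pow (h : ℕ) [NeZero h] : 2 ≤ 2 ^ h := by
  have : 1 ≤ h := Nat.pos_of_ne_zero (NeZero.ne h)
  calc 2 = 2 ^ 1 := by norm_num
    _ ≤ 2 ^ h := Nat.pow_le_pow_right (by norm_num) this

/-- the Gram matrix. -/
theorem IsOv.gram [DecidableEq (Fin 4 → F)] (hO : IsOv h Om) {y z : Fin 4 → F} (hy : y ∈ Om)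
    (hz : z ∈ Om) : bf (h := h) (hat y) (hat z) = 1 + if y = z then 1 else 0 := by
  have h2 : (2 : F) = 0 := CharTwo.two_eq_zero
  have h3 := one_lt_two_pow h
  rw [bf_hat]
  by_cases hyz : y = z
  · subst hyz
    rw [if_pos rfl, om4_self, zero_pow (by omega)]
    linear_combination -h2
  · rw [if_neg hyz, add_zero]
    have := FiniteField.pow_card_sub_one_eq_one _ (hO.ne y hy z hz hyz)
    rwa [hO.cardF] at this

theorem finrank_E : Module.finrank F (E F h) = (2 ^ h) ^ 2 := by
  rw [Module.finrank_fintype_fun_eq_card, Fintype.card_pi]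
  simp only [Fintype.card_fin, Finset.prod_const, Finset.card_univ, ZMod.card]
  rw [← pow_mul, mul_comm, pow_mul]
  norm_num

theorem IsOv.aux (hO : IsOv h Om) (c : Om → F)
    (hc : ∑ y : Om, c y • (hat (h := h) (y : Fin 4 → F)) = 0) (z : Om) : c z = ∑ y, c y := by
  classical
  have h1 : bf (∑ y : Om, c y • (hat (h := h) (y : Fin 4 → F))) (hat (z : Fin 4 → F)) = 0 := by
    rw [hc]; simp [bf]
  have h2 : bf (∑ y : Om, c y • (hat (h := h) (y : Fin 4 → F))) (hat (z : Fin 4 → F)) =
      ∑ y : Om, c y * (1 + if (y : Fin 4 → F) = z then 1 else 0) := by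
    change bfL (∑ y : Om, c y • (hat (h := h) (y : Fin 4 → F))) (hat (z : Fin 4 → F)) = _
    rw [map_sum, LinearMap.sum_apply]
    refine Finset.sum_congr rfl fun y _ => ?_
    rw [map_smul, LinearMap.smul_apply, bfL_apply, hO.gram y.2 z.2, smul_eq_mul]
  rw [h1] at h2
  have h3 : ∑ y : Om, c y * (1 + if (y : Fin 4 → F) = z then 1 else 0) = (∑ y, c y) + c z := by
    have : ∀ y : Om, c y * (1 + if (y : Fin 4 → F) = z then 1 else 0) =
        c y + if y = z then c y else 0 := by
      intro y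
      by_cases hy : y = z
      · rw [if_pos hy, if_pos (congrArg _ hy)]; ring
      · rw [if_neg hy, if_neg (fun hh => hy (Subtype.ext hh))]; ring
    rw [Finset.sum_congr rfl fun y _ => this y, Finset.sum_add_distrib]
    simp
  rw [h3] at h2
  exact (CharTwo.add_eq_zero.1 h2.symm).symm

/-- the map from functions on the ovoid to words. -/
noncomputable def LL (Om : Finset (Fin 4 → F)) (h : ℕ) [NeZero h] : (Om → F) →ₗ[F] E F h :=
  Fintype.linearCombination F (fun y : Om => hat (h := h) (y : Fin 4 → F))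

theorem LL_apply (c : Om → F) : LL Om h c = ∑ y : Om, c y • hat (h := h) (y : Fin 4 → F) := by
  simp [LL, Fintype.linearCombination_apply]

theorem IsOv.ker_le (hO : IsOv h Om) : LinearMap.ker (LL Om h) ≤ Submodule.span F {fun _ => 1} := by
  intro c hc
  rw [LinearMap.mem_ker, LL_apply] at hc
  rw [Submodule.mem_span_singleton]
  refine ⟨∑ y, c y, ?_⟩
  funext z
  rw [hO.aux c hc z]
  simp

theorem IsOv.surj (hO : IsOv h Om) : LinearMap.range (LL Om h) = ⊤ := by
  apply Submodule.eq_top_of_finrank_eq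
  have h1 := LinearMap.finrank_range_add_finrank_ker (LL Om h)
  have h2 : Module.finrank F (LinearMap.ker (LL Om h)) ≤ 1 := by
    refine (Submodule.finrank_mono hO.ker_le).trans ?_
    exact (finrank_span_le_card _).trans (by simp)
  rw [Module.finrank_fintype_fun_eq_card, Fintype.card_coe, hO.card] at h1
  have h3 : Module.finrank F (LinearMap.range (LL Om h)) ≤ Module.finrank F (E F h) :=
    Submodule.finrank_le _
  rw [finrank_E] at h3 ⊢
  omega

/-- (I1) the tensor powers of the points span. -/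
theorem IsOv.span (hO : IsOv h Om) :
    Submodule.span F ((fun y => hat (h := h) y) '' (Om : Set (Fin 4 → F))) = ⊤ := by
  rw [← hO.surj, LL, Fintype.range_linearCombination]
  congr 1
  ext φ
  simp

theorem IsOv.ind (hO : IsOv h Om) {p : E F h → Prop} (hh : ∀ y ∈ Om, p (hat y)) (h0 : p 0)
    (ha : ∀ φ ψ, p φ → p ψ → p (φ + ψ)) (hs : ∀ (a : F) φ, p φ → p (a • φ)) (φ : E F h) :
    p φ := by
  have : φ ∈ Submodule.span F ((fun y => hat (h := h) y) '' (Om : Set (Fin 4 → F))) := by
    rw [hO.span]; trivial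
  induction this using Submodule.span_induction with
  | mem x hx =>
    obtain ⟨y, hy, rfl⟩ := hx
    exact hh y hy
  | zero => exact h0
  | add x y _ _ hx hy => exact ha x y hx hy
  | smul a x _ hx => exact hs a x hx

/-- (I1') a word form vanishing on the ovoid is zero. -/
theorem IsOv.inj (hO : IsOv h Om) {φ : E F h} (hφ : ∀ y ∈ Om, bf φ (hat y) = 0) : φ = 0 := by
  apply bf_nd
  refine hO.ind hφ (by simp [bf]) ?_ ?_
  · intro ψ ψ' h1 h2; rw [bf_add_right, h1, h2, add_zero]
  · intro a ψ h1; rw [bf_smul_right, h1, mul_zero]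

/-- the points sum to zero. -/
theorem IsOv.sum_hat (hO : IsOv h Om) : ∑ y ∈ Om, hat (h := h) y = 0 := by
  apply bf_nd
  classical
  refine hO.ind ?_ (by simp [bf]) ?_ ?_
  · intro z hz
    change bfL (∑ y ∈ Om, hat (h := h) y) (hat z) = 0
    rw [map_sum, LinearMap.sum_apply]
    have : ∀ y ∈ Om, bfL (hat (h := h) y) (hat z) = 1 + if y = z then 1 else 0 := fun y hy =>
      hO.gram hy hz
    rw [Finset.sum_congr rfl this, Finset.sum_add_distrib, Finset.sum_ite_eq' Om z, if_pos hz,
      Finset.sum_const, hO.card]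
    have h2 : (2 : F) = 0 := CharTwo.two_eq_zero
    have h3 := one_lt_two_pow h
    have h4 : ((2 ^ h : ℕ) : F) = 0 := by
      push_cast
      rw [h2, zero_pow (NeZero.ne h)]
    rw [nsmul_eq_mul]
    push_cast
    push_cast at h4
    rw [h4]
    linear_combination h2
  · intro ψ ψ' h1 h2; rw [bf_add_right, h1, h2, add_zero]
  · intro a ψ h1; rw [bf_smul_right, h1, mul_zero]

/-- (S1) one letter at every digit. -/
theorem IsOv.sum_one (hO : IsOv h Om) (φ : E F h) : ∑ y ∈ Om, bf φ (hat y) = 0 := by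
  have h1 : bfL φ (∑ y ∈ Om, hat (h := h) y) = 0 := by rw [hO.sum_hat, map_zero]
  rw [map_sum] at h1
  exact h1

/-- (I2) two letters at every digit. -/
theorem IsOv.sum_two (hO : IsOv h Om) (φ ψ : E F h) :
    ∑ y ∈ Om, bf φ (hat y) * bf ψ (hat y) = bf φ ψ := by
  classical
  have h2 : (2 : F) = 0 := CharTwo.two_eq_zero
  refine hO.ind (p := fun φ => ∑ y ∈ Om, bf φ (hat y) * bf ψ (hat y) = bf φ ψ) ?_ (by simp [bf])
    ?_ ?_ φ
  · intro z hz
    refine hO.ind (p := fun ψ => ∑ y ∈ Om, bf (hat z) (hat y) * bf ψ (hat y) = bf (hat z) ψ) ?_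
      (by simp [bf]) ?_ ?_ ψ
    · intro z' hz'
      have h1 : ∀ y ∈ Om, bf (h := h) (hat z) (hat y) * bf (h := h) (hat z') (hat y) =
          bf (h := h) (hat z) (hat y) + if z' = y then bf (h := h) (hat z) (hat y) else 0 := by
        intro y hy
        rw [hO.gram hz' hy]
        split_ifs <;> ring
      rw [Finset.sum_congr rfl h1, Finset.sum_add_distrib, hO.sum_one, zero_add,
        Finset.sum_ite_eq Om z', if_pos hz']
    · intro ψ ψ' h1 h3
      rw [bf_add_right, ← h1, ← h3, ← Finset.sum_add_distrib]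
      exact Finset.sum_congr rfl fun y _ => by rw [bf_add_left]; ring
    · intro a ψ h1
      rw [bf_smul_right, ← h1, Finset.mul_sum]
      exact Finset.sum_congr rfl fun y _ => by rw [bf_smul_left]; ring
  · intro φ φ' h1 h3
    rw [bf_add_left, ← h1, ← h3, ← Finset.sum_add_distrib]
    exact Finset.sum_congr rfl fun y _ => by rw [bf_add_left]; ring
  · intro a φ h1
    rw [bf_smul_left, ← h1, Finset.mul_sum]
    exact Finset.sum_congr rfl fun y _ => by rw [bf_smul_left]; ring

end

end Pool.Agent.H1.OV
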